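import Pool.Agent.N870.EC.Stm2
import Pool.Agent.N300.EC.SZ4

/-! Project EC: the Selmer groups of the curves `cM M N` (helper136, after helper300). -/

set_option autoImplicit false

namespace Pool.Agent.N136.EC

open Finset Polynomial Pool.Agent.N870.EC

open scoped Classical

open Pool.Agent.TH841.SH (IsR)
open Pool.Agent.W307.SE (Sel SN SelR)
open Pool.Agent.W307.RT (Sh HasT Cv)
open Pool.Agent.N300.EC (SN9)

theorem t_SZG (h : S_SELGE) : S_SZG := by
  intro u v hu0 hv0 huv0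
  have hc1 : (cM u v).1 = -27 * (u ^ 2 - u * v + v ^ 2) := rfl
  have hc2 : (cM u v).2 = 27 * ((u + v) * ((2 * u - v) * (u - 2 * v))) := rfl
  have hD : 4 * (cM u v).1 ^ 3 + 27 * (cM u v).2 ^ 2 ≠ 0 := by
    have : 4 * (cM u v).1 ^ 3 + 27 * (cM u v).2 ^ 2 = -(729 * (u * v * (u - v))) ^ 2 := by
      rw [hc1, hc2]
      ring
    rw [this, neg_ne_zero]
    exact pow_ne_zero 2 (mul_ne_zero (by norm_num)
      (mul_ne_zero (mul_ne_zero hu0 hv0) (sub_ne_zero.2 huv0)))
  have hT : HasT 2 (Sh (cM u v).1 (cM u v).2) := by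
    apply Pool.Agent.W672.FK.hasT2 (a := -3 * (u : ℚ)) (b := -3 * (v : ℚ))
    · rw [hc1]
      push_cast
      ring
    · rw [hc2]
      push_cast
      ring
    · exact mul_ne_zero (by norm_num) (by exact_mod_cast hu0)
    · exact mul_ne_zero (by norm_num) (by exact_mod_cast hv0)
    · rw [← mul_sub]
      exact mul_ne_zero (by norm_num) (sub_ne_zero.2 (by exact_mod_cast huv0))
  have hR : IsR (Sh (cM u v).1 (cM u v).2) ((3 * (u + v) : ℤ) : ℚ) ((-3 * (2 * u - v) : ℤ) : ℚ)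
      ((-3 * (2 * v - u) : ℤ) : ℚ) := by
    apply Pool.Agent.TH841.SH.isR_Sh
    intro x
    rw [hc1, hc2]
    ring
  obtain ⟨⟨hfin, hcard⟩, -⟩ := Pool.Agent.Y728.RC.sel_eq hD hT
  have key := h (Sh (cM u v).1 (cM u v).2) (3 * (u + v)) (-3 * (2 * u - v)) (-3 * (2 * v - u))
    (fun h1 => hu0 (by linarith)) (fun h1 => hv0 (by linarith)) (fun h1 => huv0 (by linarith)) hR hfin
  rw [hcard] at key
  have e1 : -3 * (2 * u - v) - 3 * (u + v) = 9 * -u := by ring
  have e2 : -3 * (2 * v - u) - 3 * (u + v) = 9 * -v := by ring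
  rw [e1, e2] at key
  exact (SN9 (neg_ne_zero.2 hu0) (neg_ne_zero.2 hv0) fun h1 => huv0 (neg_injective h1)).trans key

end Pool.Agent.N136.EC
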